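import Mathlib
import Pool.Agent.Q76.ApFinal

/-!
# Assouad dimension of projections of self-similar sets with dense rotations

Every orthogonal projection onto a `k`-dimensional subspace, `1 ≤ k < d`, of a self-similar set
with at least two points and dense rotations in `ℝ^d` has Assouad dimension `k`.
-/

namespace Pool.Agent.Results.MP_b41e65_an.AssouadProjections

open Q76.AP

/-- Let `F ⊆ ℝ^d` be a self-similar set with at least two points whose rotations are dense, that
is, the closure of the group generated by the orthogonal parts contains the rotation group. Then
for every subspace `V` of dimension `k`, `1 ≤ k < d`, the orthogonal projection of `F` to `V` has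
Assouad dimension `k`. No separation condition is assumed. -/
theorem result {d k : ℕ} (hk : 1 ≤ k) (hkd : k < d) {ι : Type} [Finite ι] (c : ι → ℝ)
    (O : ι → Isom d) (t : ι → E d) (hc : ∀ i, 0 < c i ∧ c i < 1) (F : Set (E d))
    (hF : IsAttractor c O t F) (hF2 : F.Nontrivial) (hd : RotationsDense O)
    (V : Submodule ℝ (E d)) (hV : Module.finrank ℝ V = k) :
    assouadDim (projSet V F) = k :=
  assouadDim_eq hc hF hF2 hd V hV hk hkd

end Pool.Agent.Results.MP_b41e65_an.AssouadProjections
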